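import Pool.Agent.Helper46.C2.St
import Pool.Agent.Helper41.GD.M_CEL

/-!
Project C2 (MP_b3ce06_al), module CEL: the big cell is finite.
-/

set_option autoImplicit false

namespace Pool.Agent.Helper8.C2

open Pool.Agent.Helper46.C2
open Pool.Agent.Helper43.GD (Fr)
open Pool.Agent.Helper41.GD (Cell cell_finite hE_comm hF_comm Fh_comm cell_leftE cell_rightE
  cell_lefth)

private theorem kap {L : Type} [CommRing L] [Finite L] (h2 : StCRT)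
    (h4 : ∀ I : Ideal L, I.IsMaximal → 4 ≤ Nat.card (L ⧸ I)) (c b₁ b₂ : L) :
    ∃ κ : L, IsUnit (1 + (c - κ) * b₁) ∧ IsUnit (1 + κ * b₂) := by
  obtain ⟨κ, hκ⟩ := h2 L h4 ![-b₁, b₂, 0] ![1 + c * b₁, 1, 1] (by
    intro I hI i
    have h1 : (1 : L) ∉ I := fun h => hI.ne_top ((Ideal.eq_top_iff_one I).2 h)
    fin_cases i
    · simp only [Fin.zero_eta, Matrix.cons_val_zero]
      by_cases hb : -b₁ ∈ I
      · right
        intro hcon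
        apply h1
        have hb' : c * b₁ ∈ I := I.mul_mem_left c (by simpa using I.neg_mem hb)
        have := I.sub_mem hcon hb'
        simpa using this
      · exact Or.inl hb
    · exact Or.inr h1
    · exact Or.inr h1)
  refine ⟨κ, ?_, ?_⟩
  · have := hκ 0
    simp only [Matrix.cons_val_zero] at this
    have e : 1 + (c - κ) * b₁ = -b₁ * κ + (1 + c * b₁) := by ring
    rw [e]
    exact this
  · have := hκ 1
    simp only [Matrix.cons_val_one, Matrix.cons_val_zero] at this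
    have e : 1 + κ * b₂ = b₂ * κ + 1 := by ring
    rw [e]
    exact this

private theorem core {L A : Type} [CommRing L] [Group A] (Q : Fr L A)
    (hRL : ∀ (a b : L) (d : Lˣ), (d : L) = 1 + a * b →
    Q.E a * Q.F b = Q.F (((d⁻¹ : Lˣ) : L) * b) * (Q.h d * Q.h d) * Q.E (((d⁻¹ : Lˣ) : L) * a))
    (hU : ∀ u : Lˣ, u ∈ Q.U) (b₁ c b₂ : L)
    (hk : ∃ κ : L, IsUnit (1 + (c - κ) * b₁) ∧ IsUnit (1 + κ * b₂)) :
    Q.F b₁ * Q.E c * Q.F b₂ ∈ Cell Q := by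
  obtain ⟨κ, ⟨D, hD⟩, ⟨D', hD'⟩⟩ := hk
  have r1 := hRL κ b₂ D' hD'
  have r2 := hRL (-(c - κ)) (-b₁) D (by rw [hD]; ring)
  have r3 : Q.F b₁ * Q.E (c - κ) = Q.E (((D⁻¹ : Lˣ) : L) * (c - κ)) *
      (Q.h D⁻¹ * Q.h D⁻¹) * Q.F (((D⁻¹ : Lˣ) : L) * b₁) := by
    have e := congrArg Inv.inv r2
    rw [Q.E_neg, Q.F_neg, mul_neg, mul_neg, Q.F_neg, Q.E_neg, mul_inv_rev, inv_inv, inv_inv,
      mul_inv_rev, mul_inv_rev, mul_inv_rev, inv_inv, inv_inv, ← Q.h_inv (hU D)] at e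
    rw [e]; group
  have hc : Q.E c = Q.E (c - κ) * Q.E κ := by rw [← Q.Eadd, sub_add_cancel]
  set A₁ := ((D⁻¹ : Lˣ) : L) * (c - κ)
  set B₁ := ((D⁻¹ : Lˣ) : L) * b₁
  set A₂ := ((D'⁻¹ : Lˣ) : L) * κ
  set B₂ := ((D'⁻¹ : Lˣ) : L) * b₂
  have s1 : Q.h D⁻¹ * Q.h D⁻¹ * Q.F (B₁ + B₂) =
      Q.F ((((D⁻¹ : Lˣ)⁻¹ : Lˣ) : L) * ((((D⁻¹ : Lˣ)⁻¹ : Lˣ) : L) * (B₁ + B₂))) *
        (Q.h D⁻¹ * Q.h D⁻¹) := by
    rw [mul_assoc, hF_comm Q hU, ← mul_assoc, hF_comm Q hU, mul_assoc]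
  refine ⟨A₁, (((D⁻¹ : Lˣ)⁻¹ : Lˣ) : L) * ((((D⁻¹ : Lˣ)⁻¹ : Lˣ) : L) * (B₁ + B₂)),
    D⁻¹ * D⁻¹ * (D' * D'), A₂, ?_⟩
  rw [Q.h_mul (hU _) (hU _), Q.h_mul (hU D⁻¹) (hU _), Q.h_mul (hU D') (hU _)]
  calc Q.F b₁ * Q.E c * Q.F b₂ = (Q.F b₁ * Q.E (c - κ)) * (Q.E κ * Q.F b₂) := by
        rw [hc]; group
    _ = (Q.E A₁ * (Q.h D⁻¹ * Q.h D⁻¹) * Q.F B₁) * (Q.F B₂ * (Q.h D' * Q.h D') * Q.E A₂) := by
        rw [r3, r1]
    _ = Q.E A₁ * (Q.h D⁻¹ * Q.h D⁻¹ * (Q.F B₁ * Q.F B₂)) * (Q.h D' * Q.h D') * Q.E A₂ := by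
        group
    _ = _ := by
        rw [← Q.Fadd, s1]; group

theorem hCEL (h1 : StRL) (h2 : StCRT) : StCEL := by
  intro L A _ _ Q hfin h4 hU
  have hcore : ∀ b₁ c b₂, Q.F b₁ * Q.E c * Q.F b₂ ∈ Cell Q := fun b₁ c b₂ =>
    core Q (h1 L A Q hfin h4 hU) hU b₁ c b₂ (kap h2 h4 c b₁ b₂)
  have hrightF : ∀ {g : A}, g ∈ Cell Q → ∀ b' : L, g * Q.F b' ∈ Cell Q := by
    rintro g ⟨a, b, y, c, rfl⟩ b'
    have e : Q.E a * Q.F b * Q.h y * Q.E c * Q.F b' =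
        Q.E a * (Q.h y * (Q.F ((y : L) * b) * Q.E c * Q.F b')) := by
      calc Q.E a * Q.F b * Q.h y * Q.E c * Q.F b'
          = Q.E a * (Q.F b * Q.h y) * Q.E c * Q.F b' := by group
        _ = _ := by rw [Fh_comm Q hU]; group
    rw [e]
    exact cell_leftE Q (cell_lefth Q hU (hcore _ _ _) _) _
  have hone : (1 : A) ∈ Cell Q := by
    refine ⟨0, 0, 1, 0, ?_⟩
    rw [Q.E_zero, Q.F_zero, Q.h_one]; simp
  have hsub : (Q.gp : Set A) ⊆ Cell Q := by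
    intro g hg
    have hg' : g ∈ Subgroup.closure (Set.range Q.E ∪ Set.range Q.F) := hg
    induction hg' using Subgroup.closure_induction_right with
    | one => exact hone
    | mul_right x hx y hy ih =>
      rcases hy with ⟨a, rfl⟩ | ⟨b, rfl⟩
      · exact cell_rightE Q (ih hx) a
      · exact hrightF (ih hx) b
    | mul_inv_cancel x hx y hy ih =>
      rcases hy with ⟨a, rfl⟩ | ⟨b, rfl⟩
      · rw [← Q.E_neg]; exact cell_rightE Q (ih hx) _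
      · rw [← Q.F_neg]; exact hrightF (ih hx) _
  exact ((cell_finite Q).subset hsub).to_subtype

end Pool.Agent.Helper8.C2
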